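import Pool.Agent.H43R3.SN.StmtsA

/-!
# Project H43-SN, task CNT: the number of unused sums
-/

set_option autoImplicit false

open Finset

namespace Pool.Agent.H343R3.SN

open Pool.Agent.H43R3.SN

theorem taskCNT : TaskCNT := by
  classical
  intro α V gam g X h Sg Z D₀ D₁ v₀ v₁ P hz hZ hv₀ hg₀ hv₁ hg₁ hD₀ hD₁
  set s₀ : Finset α := V.filter (fun w => gam v₀ w) with hs₀
  set s₁ : Finset α := V.filter (fun w => gam v₁ w) with hs₁
  set Hl : Finset ℕ := (range (X + 1)) \ (V.image g) with hHl
  set U : Finset ℕ := (Icc 1 (2 * X - 1)).filter (fun u => u ∉ Sg) with hU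
  have c₀ : s₀.card ≤ D₀ := hD₀ s₀ (fun w hw => by
    rw [hs₀, mem_filter] at hw; exact hw)
  have c₁ : s₁.card ≤ D₁ := hD₁ s₁ (fun w hw => by
    rw [hs₁, mem_filter] at hw; exact hw)
  have himg : V.image g ⊆ range (X + 1) := by
    intro x hx
    obtain ⟨v, hv, rfl⟩ := mem_image.1 hx
    have := P.le v hv
    exact mem_range.2 (by omega)
  have cH : Hl.card ≤ h := by
    have h1 : (V.image g).card = V.card := card_image_of_injOn P.inj
    have h2 : Hl.card = (range (X + 1)).card - (V.image g).card := card_sdiff_of_subset himg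
    have h3 := P.hole
    rw [card_range] at h2
    omega
  have hsub : U ⊆ (s₀.image g ∪ s₁.image (fun w => g w + X)) ∪
      Hl.image (fun p => if p ≤ Z then p else p + X) := by
    intro u hu
    rw [hU, mem_filter, mem_Icc] at hu
    obtain ⟨⟨hu1, hu2⟩, hu3⟩ := hu
    have hX : u + 1 ≤ 2 * X := by omega
    rcases hz u hu1 hX hu3 with h1 | h1
    · by_cases hh : ∃ w ∈ V, g w = u
      · obtain ⟨w, hw, hwu⟩ := hh
        have hne : v₀ ≠ w := by
          rintro rfl
          omega
        have hgam : gam v₀ w := by
          by_contra hn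
          have := (P.used v₀ hv₀ w hw hne).2 hn
          rw [hg₀, hwu, Nat.zero_add] at this
          exact hu3 this
        refine mem_union_left _ (mem_union_left _ (mem_image.2 ⟨w, ?_, hwu⟩))
        rw [hs₀, mem_filter]
        exact ⟨hw, hgam⟩
      · refine mem_union_right _ (mem_image.2 ⟨u, ?_, by simp [h1]⟩)
        rw [hHl, mem_sdiff, mem_range]
        refine ⟨by omega, fun hm => ?_⟩
        obtain ⟨w, hw, hwu⟩ := mem_image.1 hm
        exact hh ⟨w, hw, hwu⟩
    · have hXu : X ≤ u := by omega
      by_cases hh : ∃ w ∈ V, g w = u - X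
      · obtain ⟨w, hw, hwu⟩ := hh
        have hne : v₁ ≠ w := by
          rintro rfl
          omega
        have hgam : gam v₁ w := by
          by_contra hn
          have := (P.used v₁ hv₁ w hw hne).2 hn
          rw [hg₁, hwu] at this
          have e : X + (u - X) = u := by omega
          rw [e] at this
          exact hu3 this
        refine mem_union_left _ (mem_union_right _ (mem_image.2 ⟨w, ?_, ?_⟩))
        · rw [hs₁, mem_filter]
          exact ⟨hw, hgam⟩
        · show g w + X = u
          omega
      · refine mem_union_right _ (mem_image.2 ⟨u - X, ?_, ?_⟩)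
        · rw [hHl, mem_sdiff, mem_range]
          refine ⟨by omega, fun hm => ?_⟩
          obtain ⟨w, hw, hwu⟩ := mem_image.1 hm
          exact hh ⟨w, hw, hwu⟩
        · have hn : ¬ (u - X ≤ Z) := by omega
          simp only [if_neg hn]
          omega
  have cU : U.card ≤ D₀ + D₁ + h := by
    refine (card_le_card hsub).trans ?_
    refine (card_union_le _ _).trans ?_
    have a1 := card_union_le (s₀.image g) (s₁.image (fun w => g w + X))
    have a2 : (s₀.image g).card ≤ s₀.card := card_image_le
    have a3 : (s₁.image (fun w => g w + X)).card ≤ s₁.card := card_image_le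
    have a4 : (Hl.image (fun p => if p ≤ Z then p else p + X)).card ≤ Hl.card := card_image_le
    omega
  have cI : (Icc 1 (2 * X - 1)).card ≤ Sg.card + U.card := by
    have e : Icc 1 (2 * X - 1) ⊆ Sg ∪ U := by
      intro u hu
      by_cases hs : u ∈ Sg
      · exact mem_union_left _ hs
      · refine mem_union_right _ ?_
        rw [hU, mem_filter]
        exact ⟨hu, hs⟩
    exact (card_le_card e).trans (card_union_le _ _)
  rw [Nat.card_Icc] at cI
  omega

end Pool.Agent.H343R3.SN
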